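import Pool.Agent.Q187.LF.Main

/-! Lifting cohomologically trivial cycles orthogonally to the fibral cycles on models whose bad
fibres have one node. -/

set_option autoImplicit false

namespace Pool.Agent.Q46.LN

open Pool.Agent.Q187.LF Finset

universe u

/-- Cohomology at a prime of a model `M`. The model is the resolution of a flat model with one
singular point `P` of the fibre `Y` at this prime, an ordinary double point; `D` is the preimage of
`P`. Even cohomology with coefficients in a field of characteristic zero, degree `2 i` for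
`i : ℤ`, geometric points: `HM`, `HY`, `HD`, `HX`, `HL`, `HB` are the groups of the fibre of `M`, of
`Y`, of `D`, of the generic fibre, of the punctured neighbourhood of `P` in the singular model, and
of the Milnor fibre at `P`. The maps are the class of the restriction of a cycle to the fibre, the
restriction to `D`, the pull-back along the resolution, the specialization map, the map from the
cohomology of `D` (the preimage of the neighbourhood of `P`) to that of the punctured
neighbourhood, and the restrictions to the Milnor fibre. -/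
structure NodeData (T : Theory.{u}) (M : T.Mdl) where
  HM : ℤ → Type
  HY : ℤ → Type
  HD : ℤ → Type
  HX : ℤ → Type
  HL : ℤ → Type
  HB : ℤ → Type
  gM : ∀ i, AddCommGroup (HM i)
  gY : ∀ i, AddCommGroup (HY i)
  gD : ∀ i, AddCommGroup (HD i)
  gX : ∀ i, AddCommGroup (HX i)
  gL : ∀ i, AddCommGroup (HL i)
  gB : ∀ i, AddCommGroup (HB i)
  cl : ∀ i, T.Ch M → HM i
  toD : ∀ i, HM i → HD i
  pull : ∀ i, HY i → HM i
  spec : ∀ i, HM i → HX i
  link : ∀ i, HD i → HL i
  mil : ∀ i, HL i → HB i
  res : ∀ i, HX i → HB i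

attribute [instance] NodeData.gM NodeData.gY NodeData.gD NodeData.gX NodeData.gL NodeData.gB

/-- `f` is additive. -/
def Additive {A B : Type} [AddCommGroup A] [AddCommGroup B] (f : A → B) : Prop :=
  ∀ x y, f (x - y) = f x - f y

variable {T : Theory.{u}} {M : T.Mdl}

/-- The maps are additive. -/
structure NodeAdditive (D : NodeData T M) : Prop where
  cl : ∀ i, ∀ a ∈ T.codim M i, ∀ b ∈ T.codim M i, D.cl i (a - b) = D.cl i a - D.cl i b
  toD : ∀ i, Additive (D.toD i)
  pull : ∀ i, Additive (D.pull i)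
  spec : ∀ i, Additive (D.spec i)
  link : ∀ i, Additive (D.link i)
  mil : ∀ i, Additive (D.mil i)
  res : ∀ i, Additive (D.res i)

/-- Exactness. -/
structure NodeExact (D : NodeData T M) : Prop where
  /-- the two ways to the Milnor fibre agree -/
  square : ∀ i x, D.mil i (D.link i (D.toD i x)) = D.res i (D.spec i x)
  /-- a class of the fibre of `M` which vanishes on `D` comes from `Y` -/
  blowup : ∀ i x, D.toD i x = 0 → ∃ y, D.pull i y = x
  /-- vanishing cycles: the specialization map of `Y` is injective in even degrees -/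
  vanishing : ∀ i y, D.spec i (D.pull i y) = 0 → y = 0
  /-- classes of `D` which vanish on the Milnor fibre vanish on the punctured neighbourhood -/
  milnor : ∀ i x, D.mil i (D.link i x) = 0 → D.link i x = 0

/-- Classes of cycles; `Fib` is the set of the classes of cycles in the fibre at the prime. -/
structure NodeCycles (D : NodeData T M) (Fib : Set (T.Ch M)) : Prop where
  /-- the class of the fibre specializes to the class of the generic fibre -/
  hom : ∀ i, ∀ a ∈ T.codim M i, InHom0 T M a → D.spec i (D.cl i a) = 0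
  /-- the cohomology of `D` is algebraic: if the restriction of a cycle to `D` vanishes on the
  punctured neighbourhood then it is the restriction of the class of a cycle on `D` -/
  algebraic : ∀ i, ∀ a ∈ T.codim M i, D.link i (D.toD i (D.cl i a)) = 0 →
    ∃ w ∈ T.codim M i, w ∈ Submodule.span ℚ Fib ∧ D.toD i (D.cl i w) = D.toD i (D.cl i a)
  /-- the numbers `(a,v)`, `v` in the fibre, depend on the class of the restriction only -/
  pairing : ∀ i, ∀ a ∈ T.codim M i, InHom0 T M a → D.cl i a = 0 → ∀ v ∈ Fib, T.pair M a v = 0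

/-- At a prime the model is the resolution of a flat model with one singular point, an ordinary
double point. -/
def NodeAt (T : Theory.{u}) (M : T.Mdl) (Fib : Set (T.Ch M)) : Prop :=
  ∃ D : NodeData T M, NodeAdditive D ∧ NodeExact D ∧ NodeCycles D Fib

/-- A model which at each prime is smooth, or (regular curve) x (smooth), or has one node. -/
def IsMild (T : Theory.{u}) (M : T.Mdl) : Prop :=
  ∃ (P : Type) (Fib : P → Set (T.Ch M)) (bad : Finset P),
    (∀ v, Fibral T M v → v ∈ Submodule.span ℚ (⋃ p, Fib p)) ∧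
    (∀ p, ∀ v ∈ Fib p, Fibral T M v) ∧
    (∀ p p', p ≠ p' → ∀ v ∈ Fib p, ∀ w ∈ Fib p', T.pair M v w = 0) ∧
    (∀ p, p ∉ bad → SmoothAt T M (Fib p)) ∧
    (∀ p ∈ bad, CurveTimesSmoothAt T M (Fib p) ∨ NodeAt T M (Fib p))

/-- The diagonal acts as the identity. -/
def Diagonal (T : Theory.{u}) : Prop :=
  ∀ X : T.Var, ∃ Δ : T.Cor X X 0, ∀ c, T.act Δ c = c

/-- Every cohomologically trivial class on `X` lifts, on every regular model of `X`, to a class
orthogonal to the fibral classes. -/
def AllLift (T : Theory.{u}) (X : T.Var) : Prop :=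
  ∀ (N : T.Mdl), T.gen N = X → ∀ (i : ℤ), ∀ c ∈ T.codimG (T.gen N) i, c ∈ T.hom0 (T.gen N) →
    LiftsOrthogonally T N i c

/-- The classes of codimension `i` on `X` obtained by correspondences from cohomologically trivial
classes on varieties with a mild model. -/
def fromMild (T : Theory.{u}) (X : T.Var) (i : ℤ) : Submodule ℚ (T.CH X) :=
  Submodule.span ℚ {x : T.CH X | ∃ (M : T.Mdl) (e : ℤ) (Γ : T.Cor (T.gen M) X e) (j : ℤ)
    (c' : T.CH (T.gen M)), IsMild T M ∧ j + e = i ∧ c' ∈ T.codimG (T.gen M) j ∧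
      c' ∈ T.hom0 _ ∧ x = T.act Γ c'}

theorem Additive.zero {A B : Type} [AddCommGroup A] [AddCommGroup B] {f : A → B}
    (h : Additive f) : f 0 = 0 := by
  have h1 := h 0 0
  rwa [sub_self, sub_self] at h1

/-- The correction at a prime. -/
def Correctable (T : Theory.{u}) (M : T.Mdl) (Fib : Set (T.Ch M)) : Prop :=
  ∀ (i : ℤ) (a : T.Ch M), a ∈ T.codim M i → InHom0 T M a →
    ∃ w ∈ T.codim M i, w ∈ Submodule.span ℚ Fib ∧ ∀ v ∈ Fib, T.pair M w v = T.pair M a v

theorem span_res (hT : IsTheory T) {M : T.Mdl} {Fib : Set (T.Ch M)}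
    (hF : ∀ v ∈ Fib, Fibral T M v) : ∀ x ∈ Submodule.span ℚ Fib, T.res M x = 0 := by
  intro x hx
  have : Submodule.span ℚ Fib ≤
      LinearMap.ker (IsLinearMap.mk' (T.res M) (hT.restriction.res_lin M)) :=
    Submodule.span_le.2 fun v hv => hF v hv
  exact this hx

theorem correctable_of_node (hT : IsTheory T) {M : T.Mdl} {Fib : Set (T.Ch M)}
    (hF : ∀ v ∈ Fib, Fibral T M v) (h : NodeAt T M Fib) : Correctable T M Fib := by
  obtain ⟨D, hA, hE, hC⟩ := h
  intro i a ha ha0
  have h1 : D.spec i (D.cl i a) = 0 := hC.hom i a ha ha0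
  have h2 : D.link i (D.toD i (D.cl i a)) = 0 := by
    apply hE.milnor
    rw [hE.square, h1, (hA.res i).zero]
  obtain ⟨w, hw, hws, hwD⟩ := hC.algebraic i a ha h2
  have hw0 : T.res M w = 0 := span_res hT hF w hws
  have hwh : InHom0 T M w := hom_of_zero hw0
  have hb : a - w ∈ T.codim M i := sub_mem ha hw
  have hbh : InHom0 T M (a - w) := by
    unfold InHom0 at *
    have h3 : T.res M (a - w) = T.res M a := by
      have h4 := (hT.restriction.res_lin M).map_sub a w
      rw [h4, hw0, sub_zero]
    rw [h3]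
    exact ha0
  have h5 : D.toD i (D.cl i (a - w)) = 0 := by
    rw [hA.cl i a ha w hw, hA.toD i, hwD, sub_self]
  obtain ⟨y, hy⟩ := hE.blowup i _ h5
  have h6 : y = 0 := by
    apply hE.vanishing i y
    rw [hy]
    exact hC.hom i _ hb hbh
  have h7 : D.cl i (a - w) = 0 := by rw [← hy, h6, (hA.pull i).zero]
  refine ⟨w, hw, hws, fun v hv => ?_⟩
  have h8 := hC.pairing i _ hb hbh h7 v hv
  have h9 : T.pair M a v = T.pair M (a - w) v + T.pair M w v := by
    rw [← hT.bilinear.pair_add M _ _ v hbh hwh (hF v hv), sub_add_cancel]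
  rw [h9, h8, zero_add]

theorem correctable_of_curve (hT : IsTheory T) {M : T.Mdl} {Fib : Set (T.Ch M)}
    (hF : ∀ v ∈ Fib, Fibral T M v) (h : CurveTimesSmoothAt T M Fib) : Correctable T M Fib :=
  fun _ _ ha ha0 => corr_at hT h hF ha ha0

/-- **Q1 for mild models.** -/
theorem lo_of_mild (hT : IsTheory T) {M : T.Mdl} (hM : IsMild T M) {i : ℤ} {c : T.CH (T.gen M)}
    (hc : c ∈ T.codimG (T.gen M) i) (h0 : c ∈ T.hom0 _) : LiftsOrthogonally T M i c := by
  classical
  obtain ⟨P, Fib, bad, hspan, hres, hdis, hsm, hbad⟩ := hM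
  have hbad' : ∀ p ∈ bad, Correctable T M (Fib p) := by
    intro p hp
    rcases hbad p hp with h | h
    · exact correctable_of_curve hT (hres p) h
    · exact correctable_of_node hT (hres p) h
  obtain ⟨a, ha, hr⟩ := hT.restriction.closure M i c hc
  have hra : T.res M a ∈ T.hom0 _ := by rw [hr]; exact h0
  have hex : ∀ p : P, ∃ w ∈ T.codim M i, w ∈ Submodule.span ℚ (Fib p) ∧
      (p ∈ bad → ∀ v ∈ Fib p, T.pair M w v = T.pair M a v) := by
    intro p
    by_cases hp : p ∈ bad
    · obtain ⟨w, h1, h2, h3⟩ := hbad' p hp i a ha hra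
      exact ⟨w, h1, h2, fun _ => h3⟩
    · exact ⟨0, zero_mem _, zero_mem _, fun h => absurd h hp⟩
  choose w hw1 hw2 hw3 using hex
  have hspan0 : ∀ p, ∀ x ∈ Submodule.span ℚ (Fib p), T.res M x = 0 := fun p =>
    span_res hT (hres p)
  have hcross : ∀ p p', p ≠ p' → ∀ x ∈ Submodule.span ℚ (Fib p), ∀ v ∈ Fib p', T.pair M x v = 0 := by
    intro p p' hpp x hx v hv
    have hv0 := hres p' v hv
    induction hx using Submodule.span_induction with
    | mem x h => exact hdis p p' hpp x h v hv
    | zero => exact pair_zero hT M hv0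
    | add x y hx hy ihx ihy =>
      rw [hT.bilinear.pair_add M x y v (hom_of_zero (hspan0 p x hx))
        (hom_of_zero (hspan0 p y hy)) hv0, ihx, ihy, add_zero]
    | smul t x hx ihx =>
      rw [hT.bilinear.pair_smul M t x v (hom_of_zero (hspan0 p x hx)) hv0, ihx, mul_zero]
  let z : T.Ch M := ∑ p ∈ bad, (-1 : ℚ) • w p
  have hz0 : ∀ p, T.res M ((-1 : ℚ) • w p) = 0 := fun p =>
    hspan0 p _ (Submodule.smul_mem _ _ (hw2 p))
  have hzh : ∀ p ∈ bad, T.res M ((-1 : ℚ) • w p) ∈ T.hom0 _ := by
    intro p _; rw [hz0 p]; exact zero_mem _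
  have hzr : T.res M z = 0 := by
    have : T.res M z = ∑ p ∈ bad, T.res M ((-1 : ℚ) • w p) :=
      map_sum (IsLinearMap.mk' (T.res M) (hT.restriction.res_lin M)) _ bad
    rw [this]
    exact sum_eq_zero fun p _ => hz0 p
  refine ⟨h0, a + z, add_mem ha (Submodule.sum_mem _ fun p _ => Submodule.smul_mem _ _ (hw1 p)),
    ?_, ?_⟩
  · rw [(hT.restriction.res_lin M).map_add, hr, hzr, add_zero]
  have hzhom : T.res M z ∈ T.hom0 _ := by rw [hzr]; exact zero_mem _
  have haz : T.res M (a + z) ∈ T.hom0 _ := by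
    rw [(hT.restriction.res_lin M).map_add]; exact add_mem hra hzhom
  have hfib : ∀ p0, ∀ v ∈ Fib p0, T.pair M (a + z) v = 0 := by
    intro p0 v hv
    by_cases hp0 : p0 ∈ bad
    · have hv0 := hres p0 v hv
      rw [hT.bilinear.pair_add M a z v hra hzhom hv0, (pair_sum hT M bad _ hzh hv0).2]
      have h1 : ∀ p, T.pair M ((-1 : ℚ) • w p) v = - T.pair M (w p) v := by
        intro p
        rw [hT.bilinear.pair_smul M _ _ v (hom_of_zero (hspan0 p _ (hw2 p))) hv0]
        push_cast; ring
      simp only [h1]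
      rw [Finset.sum_eq_single p0]
      · rw [hw3 p0 hp0 v hv]; ring
      · intro p _ hne
        rw [hcross p p0 hne _ (hw2 p) v hv, neg_zero]
      · intro h; exact absurd hp0 h
    · exact hsm p0 hp0 (a + z) haz v hv
  intro v hv
  have hv' := hspan v hv
  have key : ∀ x ∈ Submodule.span ℚ (⋃ p, Fib p), T.res M x = 0 ∧ T.pair M (a + z) x = 0 := by
    intro x hx
    induction hx using Submodule.span_induction with
    | mem x h =>
      obtain ⟨p, hp⟩ := Set.mem_iUnion.1 h
      exact ⟨hres p x hp, hfib p x hp⟩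
    | zero => exact ⟨res_zero hT M, pair_zero_right hT M haz⟩
    | add x y _ _ ihx ihy =>
      refine ⟨by rw [(hT.restriction.res_lin M).map_add, ihx.1, ihy.1, add_zero], ?_⟩
      rw [hT.bilinear.pair_add_right M _ x y haz ihx.1 ihy.1, ihx.2, ihy.2, add_zero]
    | smul t x _ ihx =>
      refine ⟨by rw [(hT.restriction.res_lin M).map_smul, ihx.1, smul_zero], ?_⟩
      rw [hT.bilinear.pair_smul_right M t _ x haz ihx.1, ihx.2, mul_zero]
  exact (key v hv').2

/-- Classes obtained by correspondences from mild models lift. -/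
theorem lo_of_fromMild (hT : IsTheory T) {N : T.Mdl} {i : ℤ} {c : T.CH (T.gen N)}
    (hc : c ∈ fromMild T (T.gen N) i) : LiftsOrthogonally T N i c := by
  unfold fromMild at hc
  induction hc using Submodule.span_induction with
  | mem x h =>
    obtain ⟨M, e, Γ, j, c', hM, hj, h1, h2, rfl⟩ := h
    rw [← hj]
    exact lo_act hT Γ (lo_of_mild hT hM h1 h2)
  | zero => exact lo_zero hT N i
  | add x y _ _ ihx ihy => exact lo_add hT ihx ihy
  | smul t x _ ihx => exact lo_smul hT t ihx

theorem exists_transport (hD : Diagonal T) {X Y : T.Var} (h : X = Y) (i : ℤ) (c : T.CH Y)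
    (hc : c ∈ T.codimG Y i) (h0 : c ∈ T.hom0 Y) :
    ∃ (Γ : T.Cor X Y 0) (c' : T.CH X), c' ∈ T.codimG X i ∧ c' ∈ T.hom0 X ∧ c = T.act Γ c' := by
  subst h
  obtain ⟨Δ, hΔ⟩ := hD X
  exact ⟨Δ, c, hc, h0, (hΔ c).symm⟩

/-- If `X` has a mild model then all cohomologically trivial classes lift, on all models of `X`. -/
theorem allLift_of_mild (hT : IsTheory T) (hD : Diagonal T) {M : T.Mdl} (hM : IsMild T M)
    {X : T.Var} (hX : T.gen M = X) : AllLift T X := by
  intro N hN i c hc h0
  obtain ⟨Γ, c', h1, h2, h3⟩ := exists_transport hD (hX.trans hN.symm) i c hc h0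
  rw [h3]
  have h4 := lo_act hT Γ (lo_of_mild hT hM h1 h2)
  rwa [add_zero] at h4

end Pool.Agent.Q46.LN
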