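import Pool.Agent.Q46.LN.Seed
import Pool.Agent.Q46.ND.Pos
import Pool.Agent.Q46.ND.Ek
import Pool.Agent.Q195.ND.SI
import Pool.Agent.Q195.ND.FF

/-! Counting the forms with at most one node at every prime. -/

set_option autoImplicit false

open MvPolynomial NumberField Filter
open scoped Classical

namespace Pool.Agent.Q46.LN

open Pool.Agent.TH214.RM Pool.Agent.Q46.ND

theorem form_hom' {O : Type} [CommRing O] {m d : ℕ} (a : Mon m d → O) :
    (form a).IsHomogeneous d :=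
  IsHomogeneous.sum _ _ _ fun α _ => isHomogeneous_monomial _ α.2

theorem t_FH : P_FH := by
  intro K ι _ _ _ ω n d _ hd W hW a₀ ε hε
  exact fh ω Pool.Agent.Q195.ND.t_SI n d (by omega) W hW a₀ ε hε

theorem atMostOne_add {O : Type} [CommRing O] {𝔭 : Ideal O} {m : ℕ}
    {F G : MvPolynomial (Fin m) O} {W : O} (hW : W ∈ 𝔭) (h : AtMostOneNode 𝔭 F) :
    AtMostOneNode 𝔭 (F + C W * G) := by
  intro E _ ψ hψ v hv
  have h1 : MvPolynomial.map ψ (F + C W * G) = MvPolynomial.map ψ F := by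
    have h2 : ψ W = 0 := by
      rw [← RingHom.mem_ker, hψ]
      exact hW
    rw [map_add, map_mul, map_C, h2, C_0, zero_mul, add_zero]
  rw [h1] at hv ⊢
  exact h E ψ hψ v hv

/-- Smooth, and at most one node at every prime. -/
def Lone {K : Type} [Field K] {m : ℕ} (F : MvPolynomial (Fin m) (𝓞 K)) : Prop :=
  Smooth (map (algebraMap (𝓞 K) K) F) ∧
    ∀ 𝔭 : Ideal (𝓞 K), 𝔭.IsPrime → 𝔭 ≠ ⊥ → AtMostOneNode 𝔭 F

variable {K ι : Type} [Field K] [NumberField K] [Fintype ι] (ω : Module.Basis ι ℤ (𝓞 K))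

theorem far_of_notMem' (M k : ℕ) (𝔭 : Ideal (𝓞 K)) (hp : 𝔭.IsPrime) (h0 : 𝔭 ≠ ⊥)
    (h : ((M.factorial : ℕ) : 𝓞 K) ∉ 𝔭) : Far M (M.factorial ^ k) 𝔭 := by
  refine ⟨isMaximal_of_ne_bot 𝔭 hp h0, fun p hpp hpM hpm => h ?_, ?_⟩
  · obtain ⟨c, hc⟩ := (Nat.Prime.dvd_factorial hpp).2 hpM
    rw [hc, Nat.cast_mul]
    exact Ideal.mul_mem_right _ _ hpm
  · rw [Nat.cast_pow]
    exact fun h1 => h (hp.mem_of_pow_mem _ h1)

/-- Most forms near a form with at most one node at the small primes. -/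
theorem near_lone (hFG : P_FG) (n d : ℕ) (hn : 1 ≤ n) (hd : 3 ≤ d) :
    ∃ C₀ : ℝ, 0 ≤ C₀ ∧ ∀ M k : ℕ, 1 ≤ M → 1 ≤ k →
      ∀ F₀ : MvPolynomial (Fin (n + 2)) (𝓞 K), F₀.IsHomogeneous d →
      (∀ 𝔭 : Ideal (𝓞 K), 𝔭.IsPrime → ((M.factorial : ℕ) : 𝓞 K) ∈ 𝔭 → AtMostOneNode 𝔭 F₀) →
      ∀ᶠ H : ℕ in atTop, (1 - C₀ / M) * ((formsB ω n d H).ncard : ℝ) ≤
        ({G ∈ formsB ω n d H | Lone (F₀ + C (((M.factorial : ℕ) : 𝓞 K) ^ k) * G)}.ncard : ℝ) := by
  obtain ⟨C₀, hC₀, h⟩ := count_core ω Pool.Agent.Q195.ND.t_SA hFG t_FH n d hn hd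
  have hFF : P_FF := Pool.Agent.Q195.ND.t_FF Pool.Agent.Q195.ND.t_SA
  refine ⟨max C₀ 1, by positivity, fun M k hM hk F₀ hF₀ hgood => ?_⟩
  rcases Nat.lt_or_ge M 2 with hM2 | hM2
  · obtain rfl : M = 1 := by omega
    refine Eventually.of_forall fun H => ?_
    have h1 : (1 - max C₀ 1 / ((1 : ℕ) : ℝ)) ≤ 0 := by
      rw [Nat.cast_one, div_one]
      linarith [le_max_right C₀ 1]
    exact (mul_nonpos_of_nonpos_of_nonneg h1 (Nat.cast_nonneg _)).trans (Nat.cast_nonneg _)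
  · have hM0 : (0 : ℝ) < M := by
      have : 0 < M := by omega
      exact_mod_cast this
    filter_upwards [h M (M.factorial ^ k) hM2
      (Nat.one_le_iff_ne_zero.2 (pow_ne_zero _ M.factorial_ne_zero))
      fun α => coeff α.1 F₀] with H hH
    rw [ncard_formsB ω hFF, ncard_formsB' ω Pool.Agent.Q195.ND.t_SA hFF, Nat.cast_pow]
    refine le_trans ?_ (le_trans hH ?_)
    · refine mul_le_mul_of_nonneg_right ?_ (by positivity)
      have : C₀ / M ≤ max C₀ 1 / M := div_le_div_of_nonneg_right (le_max_left _ _) hM0.le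
      linarith
    · rw [Nat.cast_le]
      refine Finset.card_le_card fun g hg => ?_
      simp only [Finset.mem_filter] at hg ⊢
      obtain ⟨hg0, hg1, hg2⟩ := hg
      have h1 : form (pt (fun α : Mon (n + 1) d => coeff α.1 F₀) (M.factorial ^ k) g) =
          F₀ + C (((M.factorial : ℕ) : 𝓞 K) ^ k) * form g := by
        rw [(hFF ω (n + 1) d).2.1, ← (hFF ω (n + 1) d).2.2 F₀ hF₀, Nat.cast_pow]
      rw [h1] at hg1 hg2
      refine ⟨hg0, hg1, fun 𝔭 hp h0 => ?_⟩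
      by_cases hMp : ((M.factorial : ℕ) : 𝓞 K) ∈ 𝔭
      · exact atMostOne_add (Ideal.pow_mem_of_mem 𝔭 hMp k hk) (hgood 𝔭 hp hMp)
      · obtain ⟨i, hi⟩ := hg2 𝔭 (far_of_notMem' M k 𝔭 hp h0 hMp)
        have hhom : (F₀ + C (((M.factorial : ℕ) : 𝓞 K) ^ k) * form g).IsHomogeneous d := by
          refine hF₀.add ?_
          have h2 := (isHomogeneous_C (Fin (n + 2)) (((M.factorial : ℕ) : 𝓞 K) ^ k)).mul
            (form_hom' g)
          rwa [zero_add] at h2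
        exact atMostOne_of_rename _ (atMostOne_of_loneNode (hhom.rename_isHomogeneous) hi)

/-- A positive proportion of the forms are smooth with at most one node at every prime. -/
theorem positive_lone (hFG : P_FG) (n d : ℕ) (hn : 1 ≤ n) (hd : 3 ≤ d) :
    ∃ c : ℝ, 0 < c ∧ ∀ᶠ H : ℕ in atTop, c * ((formsB ω n d H).ncard : ℝ) ≤
      ({F ∈ formsB ω n d H | Lone F}.ncard : ℝ) := by
  have hFF : P_FF := Pool.Agent.Q195.ND.t_FF Pool.Agent.Q195.ND.t_SA
  have hSA : P_SA := Pool.Agent.Q195.ND.t_SA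
  obtain ⟨C₀, hC₀, h⟩ := near_lone ω hFG n d hn hd
  obtain ⟨M, hM⟩ := exists_nat_gt (2 * C₀)
  have hM0 : (0 : ℝ) < M := lt_of_le_of_lt (by positivity) hM
  have hM1 : 1 ≤ M := by
    have : 0 < M := by exact_mod_cast hM0
    omega
  obtain ⟨F₀, hF₀, hcrit⟩ := exists_seedKS K n d hd M
  obtain ⟨h₀, hh₀⟩ := exists_bound ω n d F₀ hF₀
  set W : ℕ := M.factorial with hW
  have hW1 : 1 ≤ W := Nat.one_le_iff_ne_zero.2 M.factorial_ne_zero
  have hev := h M 1 hM1 le_rfl F₀ hF₀ fun 𝔭 hp hm => atMostOne_of_noSing (hcrit 𝔭 hp hm)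
  simp only [pow_one] at hev
  have hhalf : (1 : ℝ) / 2 ≤ 1 - C₀ / M := by
    have h1 : C₀ / M ≤ 1 / 2 := by
      rw [div_le_div_iff₀ hM0 (by norm_num)]
      linarith
    linarith
  set N : ℕ := Fintype.card ι * Fintype.card (Mon (n + 1) d) with hN
  have hcardB : ∀ H, (formsB ω n d H).ncard = (2 * H + 1) ^ N := by
    intro H
    rw [ncard_formsB' ω hSA hFF, (hSA ω H).2.1, ← pow_mul]
  set κ : ℝ := 2 * W + 2 * h₀ + 1 with hκ
  have hκ0 : 0 < κ := by positivity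
  refine ⟨1 / 2 / κ ^ N, by positivity, ?_⟩
  have htend : Tendsto (fun H : ℕ => (H - h₀) / W) atTop atTop := by
    refine (Nat.tendsto_div_const_atTop (by omega)).comp ?_
    exact tendsto_sub_atTop_nat h₀
  filter_upwards [htend.eventually hev, eventually_ge_atTop h₀] with H hH hHh
  set H' := (H - h₀) / W with hH'
  have hle : h₀ + W * H' ≤ H := by
    have h2 : W * H' ≤ H - h₀ := Nat.mul_div_le (H - h₀) W
    omega
  have hlt : H < h₀ + W * (H' + 1) := by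
    have h1 : H - h₀ < W * (H' + 1) :=
      Nat.lt_mul_div_succ (H - h₀) (show 0 < W by omega)
    omega
  have h5 : ({G ∈ formsB ω n d H' | Lone (F₀ + C (W : 𝓞 K) * G)}).ncard ≤
      ({F ∈ formsB ω n d H | Lone F}).ncard := by
    have hfin : (formsB ω n d H).Finite := by
      by_contra hinf
      have h6 := hcardB H
      rw [Set.Infinite.ncard hinf] at h6
      exact (pow_pos (by omega : 0 < 2 * H + 1) N).ne h6
    refine Set.ncard_le_ncard_of_injOn (fun G => F₀ + C (W : 𝓞 K) * G) ?_ ?_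
      (hfin.subset fun F hF => hF.1)
    · intro G hG
      exact ⟨add_mem_formsB ω n d W h₀ H' H hle F₀ G hh₀ hG.1, hG.2⟩
    · intro G _ G' _ hGG
      have h6 : C (W : 𝓞 K) * G = C (W : 𝓞 K) * G' := add_left_cancel hGG
      have h7 : (C (W : 𝓞 K) : MvPolynomial (Fin (n + 2)) (𝓞 K)) ≠ 0 := by
        rw [Ne, C_eq_zero, Nat.cast_eq_zero]
        omega
      exact mul_left_cancel₀ h7 h6
  have h6 : (1 : ℝ) / 2 * (2 * (H' : ℝ) + 1) ^ N ≤
      (({F ∈ formsB ω n d H | Lone F}).ncard : ℝ) := by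
    refine le_trans ?_ (Nat.cast_le.2 h5)
    refine le_trans ?_ hH
    rw [hcardB H']
    push_cast
    exact mul_le_mul_of_nonneg_right hhalf (by positivity)
  refine le_trans ?_ h6
  rw [hcardB H]
  push_cast
  have h7 : (2 * (H : ℝ) + 1) ≤ κ * (2 * H' + 1) := by
    have h8 : (H : ℝ) ≤ h₀ + W * (H' + 1) := by exact_mod_cast hlt.le
    have h9 : (0 : ℝ) ≤ H' := Nat.cast_nonneg _
    have h10 : (0 : ℝ) ≤ W := Nat.cast_nonneg _
    have h11 : (0 : ℝ) ≤ h₀ := Nat.cast_nonneg _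
    rw [hκ]
    nlinarith [mul_nonneg h10 h9, mul_nonneg h11 h9]
  have h12 : (2 * (H : ℝ) + 1) ^ N ≤ κ ^ N * (2 * H' + 1) ^ N := by
    rw [← mul_pow]
    exact pow_le_pow_left₀ (by positivity) h7 N
  calc 1 / 2 / κ ^ N * (2 * (H : ℝ) + 1) ^ N
      ≤ 1 / 2 / κ ^ N * (κ ^ N * (2 * H' + 1) ^ N) :=
        mul_le_mul_of_nonneg_left h12 (by positivity)
    _ = 1 / 2 * (2 * (H' : ℝ) + 1) ^ N := by
        field_simp

end Pool.Agent.Q46.LN
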