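import Pool.Agent.Q130.ND.EA
import Pool.Agent.Q150.ND.EB
import Pool.Agent.Q38.ND.EC
import Pool.Agent.Q38.ND.ED
import Pool.Agent.Q38.ND.EE0
import Pool.Agent.Q38.ND.EE
import Pool.Agent.Q13.ND.EF
import Pool.Agent.Q68.ND.EG
import Pool.Agent.Q129.ND.EH
import Pool.Agent.Q238.LN.EI
import Pool.Agent.Q238.LN.EM1
import Pool.Agent.Q142.LN.EJ
import Pool.Agent.Q177.ND.EK
import Pool.Agent.Q142.LN.EL
import Pool.Agent.Q142.LN.EO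
import Pool.Agent.Q142.LN.FE
import Pool.Agent.Q195.ND.FG
import Pool.Agent.Q195.ND.SI
import Pool.Agent.Q100.ND.EM
import Pool.Agent.Q46.ND.Ek

/-! Project LN: most forms have at most one node at every large prime. -/

set_option autoImplicit false

namespace Pool.Agent.Q46.LN

open Pool.Agent.Q46.ND

theorem t_SM : P_SM := Pool.Agent.Q195.ND.t_SM t_SH t_SL

theorem t_FG_of (h : P_EM1) : P_FG :=
  Pool.Agent.Q195.ND.t_FG t_SM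
    (Pool.Agent.Q100.ND.EM.t_EM h Pool.Agent.Q38.ND.t_EE0 Pool.Agent.Q38.ND.EE.t_EE
      (Pool.Agent.Q129.LNEH.t_EH Pool.Agent.Q38.ND.EE.t_EE Pool.Agent.Q13.ND.t_EF
        (Pool.Agent.Q68.ND.t_EG Pool.Agent.Q38.ND.EE.t_EE))
      Pool.Agent.Q238.LN.t_EI Pool.Agent.Q142.LN.t_EL)
    Pool.Agent.Q142.LN.t_EO Pool.Agent.Q142.LN.t_FE

theorem t_FG : P_FG := t_FG_of
  (Pool.Agent.Q238.LN.EM1.t_EM1 (Pool.Agent.Q150.ND.t_EB Pool.Agent.Q130.ND.t_EA)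
    (Pool.Agent.Q38.ND.ED.t_ED Pool.Agent.Q38.ND.EC.t_EC) Pool.Agent.Q38.ND.t_EE0
    Pool.Agent.Q38.ND.EE.t_EE Pool.Agent.Q13.ND.t_EF
    (Pool.Agent.Q68.ND.t_EG Pool.Agent.Q38.ND.EE.t_EE) Pool.Agent.Q142.LN.t_EJ
    Pool.Agent.Q177.ND.t_EK')

end Pool.Agent.Q46.LN
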