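import Pool.Agent.Q46.LN.Chow
import Pool.Agent.Q46.LN.Count
import Pool.Agent.Q46.ND.Tr

/-! Hypersurfaces with at most one node at every prime and lifting of cycles. -/

set_option autoImplicit false

open MvPolynomial NumberField Filter

namespace Pool.Agent.Q46.LN

open Pool.Agent.Q187.LF

theorem comap_ne_bot {K L : Type} [Field K] [NumberField K] [Field L] [NumberField L]
    [Algebra K L] (𝔓 : Ideal (𝓞 L)) (hP : 𝔓.IsPrime) (h0 : 𝔓 ≠ ⊥) :
    𝔓.comap (algebraMap (𝓞 K) (𝓞 L)) ≠ ⊥ := by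
  intro h
  apply h0
  have : Algebra.IsIntegral (𝓞 K) (𝓞 L) := inferInstance
  exact Ideal.eq_bot_of_comap_eq_bot h

/-- `Lone` is stable under extension of the number field. -/
theorem lone_ext {K L : Type} [Field K] [NumberField K] [Field L] [NumberField L]
    [Algebra K L] {n : ℕ} (F : MvPolynomial (Fin (n + 2)) (𝓞 K)) (h : Lone F) :
    Lone (MvPolynomial.map (algebraMap (𝓞 K) (𝓞 L)) F) := by
  refine ⟨?_, fun 𝔓 hP h0 => ?_⟩
  · have h1 := Pool.Agent.Q46.ND.smooth_map (algebraMap K L) _ h.1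
    rw [MvPolynomial.map_map] at h1 ⊢
    have h2 : (algebraMap (𝓞 L) L).comp (algebraMap (𝓞 K) (𝓞 L)) =
        (algebraMap K L).comp (algebraMap (𝓞 K) K) := by
      rw [← IsScalarTower.algebraMap_eq (𝓞 K) (𝓞 L) L, ← IsScalarTower.algebraMap_eq (𝓞 K) K L]
    rw [h2]
    exact h1
  · exact atMostOne_map _ 𝔓 (h.2 _ (Ideal.comap_isPrime _ _) (comap_ne_bot 𝔓 hP h0))

theorem finite_formsB {K ι : Type} [Field K] [NumberField K] [Fintype ι]
    (ω : Module.Basis ι ℤ (𝓞 K)) (n d H : ℕ) :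
    (Pool.Agent.Q46.ND.formsB ω n d H).Finite := by
  by_contra hinf
  have h6 := Pool.Agent.Q46.ND.ncard_formsB' ω Pool.Agent.Q195.ND.t_SA
    (Pool.Agent.Q195.ND.t_FF Pool.Agent.Q195.ND.t_SA) n d H
  rw [Set.Infinite.ncard hinf, (Pool.Agent.Q195.ND.t_SA ω H).2.1] at h6
  have h7 : 0 < ((2 * H + 1) ^ Fintype.card ι) ^ Fintype.card (Pool.Agent.Q46.ND.Mon (n + 1) d) :=
    by positivity
  omega

end Pool.Agent.Q46.LN
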