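import Pool.Agent.Q46.ND.StmE

/-! Forms with at most one node modulo a prime ideal. -/

set_option autoImplicit false

open MvPolynomial

namespace Pool.Agent.Q46.LN

/-- `v` is a singular point of the hypersurface `F = 0` in projective space. -/
def IsSing {E : Type} [Field E] {m : ℕ} (F : MvPolynomial (Fin m) E) (v : Fin m → E) : Prop :=
  v ≠ 0 ∧ eval v F = 0 ∧ ∀ j, eval v (pderiv j F) = 0

/-- The kernel of the Hessian matrix of `F` at `v` is spanned by `v`. -/
def IsNondeg {E : Type} [Field E] {m : ℕ} (F : MvPolynomial (Fin m) E) (v : Fin m → E) : Prop :=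
  ∀ w : Fin m → E, (∀ i, ∑ j, eval v (pderiv i (pderiv j F)) * w j = 0) →
    ∃ c : E, w = fun j => c * v j

/-- Modulo `𝔭` the hypersurface `F = 0` has at most one singular point, over all extensions of the
residue field, and it is nondegenerate. -/
def AtMostOneNode {O : Type} [CommRing O] (𝔭 : Ideal O) {m : ℕ} (F : MvPolynomial (Fin m) O) :
    Prop :=
  ∀ (E : Type) [Field E] (ψ : O →+* E), RingHom.ker ψ = 𝔭 → ∀ v, IsSing (map ψ F) v →
    IsNondeg (map ψ F) v ∧ ∀ w, IsSing (map ψ F) w → ∃ c : E, w = fun j => c * v j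

/-- Modulo `𝔭` the hypersurface `F = 0` has no singular point, over all extensions of the residue
field. -/
def NoSingAt {O : Type} [CommRing O] (𝔭 : Ideal O) {m : ℕ} (F : MvPolynomial (Fin m) O) : Prop :=
  ∀ (E : Type) [Field E] (ψ : O →+* E), RingHom.ker ψ = 𝔭 → ∀ v, ¬ IsSing (map ψ F) v

theorem atMostOne_of_noSing {O : Type} [CommRing O] {𝔭 : Ideal O} {m : ℕ}
    {F : MvPolynomial (Fin m) O} (h : NoSingAt 𝔭 F) : AtMostOneNode 𝔭 F :=
  fun E _ ψ hψ v hv => absurd hv (h E ψ hψ v)

theorem eval_scale {E : Type} [Field E] {m d : ℕ} {F : MvPolynomial (Fin m) E}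
    (hF : F.IsHomogeneous d) (c : E) (v : Fin m → E) :
    eval (fun j => c * v j) F = c ^ d * eval v F := by
  rw [eval_eq', eval_eq', Finset.mul_sum]
  refine Finset.sum_congr rfl fun α hα => ?_
  have h1 : ∑ i, α i = d := by
    have h2 := hF (mem_support_iff.1 hα)
    rw [Finsupp.weight_apply] at h2
    rw [← h2, Finsupp.sum_fintype _ _ (fun _ => by simp)]
    simp
  have h3 : ∏ i, (c * v i) ^ α i = c ^ d * ∏ i, v i ^ α i := by
    rw [← h1, ← Finset.prod_pow_eq_pow_sum, ← Finset.prod_mul_distrib]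
    exact Finset.prod_congr rfl fun i _ => mul_pow _ _ _
  rw [h3]
  ring

theorem pderiv_comm' {R : Type} [CommRing R] {m : ℕ} (i j : Fin m) (F : MvPolynomial (Fin m) R) :
    pderiv i (pderiv j F) = pderiv j (pderiv i F) := by
  have h : ⁅(pderiv i : Derivation R (MvPolynomial (Fin m) R) (MvPolynomial (Fin m) R)),
      (pderiv j : Derivation R (MvPolynomial (Fin m) R) (MvPolynomial (Fin m) R))⁆ =
      (0 : Derivation R (MvPolynomial (Fin m) R) (MvPolynomial (Fin m) R)) := by
    apply derivation_ext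
    intro k
    rw [Derivation.commutator_apply, pderiv_X, pderiv_X, Pi.single_apply, Pi.single_apply]
    split_ifs <;> simp
  have h2 := DFunLike.congr_fun h F
  rw [Derivation.commutator_apply, Derivation.zero_apply] at h2
  exact sub_eq_zero.1 h2

theorem hess_mul {E : Type} [Field E] {m d : ℕ} {F : MvPolynomial (Fin m) E}
    (hF : F.IsHomogeneous d) (v : Fin m → E) (hv : ∀ j, eval v (pderiv j F) = 0) (i : Fin m) :
    ∑ j, eval v (pderiv i (pderiv j F)) * v j = 0 := by
  have h1 := (hF.pderiv (i := i)).sum_X_mul_pderiv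
  have h2 := congrArg (eval v) h1
  rw [map_sum] at h2
  simp only [map_mul, eval_X, nsmul_eq_mul, map_natCast] at h2
  rw [hv i, mul_zero] at h2
  rw [← h2]
  refine Finset.sum_congr rfl fun j _ => ?_
  rw [pderiv_comm' i j]
  ring

theorem eval_hom {O E : Type} [CommRing O] [Field E] {m : ℕ} (ψ : O →+* E) (b : Fin m → O)
    (G : MvPolynomial (Fin m) O) : eval (fun j => ψ (b j)) (map ψ G) = ψ (eval b G) := by
  rw [eval_map]
  exact (eval₂_comp ψ b G).symm

theorem atMostOne_of_loneNode {O : Type} [CommRing O] {𝔭 : Ideal O} {m d : ℕ}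
    {F : MvPolynomial (Fin (m + 1)) O} (hF : F.IsHomogeneous d)
    (h : Pool.Agent.Q46.ND.LoneNode 𝔭 F) : AtMostOneNode 𝔭 F := by
  classical
  obtain ⟨b, hb0, huniq, hdet⟩ := h
  intro E _ ψ hψ v hv
  have hF' : (map ψ F).IsHomogeneous d := hF.map ψ
  have hline : ∀ u : Fin (m + 1) → E, IsSing (map ψ F) u → ∀ j, u j = u 0 * ψ (b j) := by
    intro u hu
    refine huniq E ψ hψ u hu.1 (fun j => ?_) hu.2.1
    rw [← pderiv_map]
    exact hu.2.2 j
  have hne : ∀ u : Fin (m + 1) → E, IsSing (map ψ F) u → u 0 ≠ 0 := by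
    intro u hu h0
    apply hu.1
    funext j
    rw [hline u hu j, h0, zero_mul, Pi.zero_apply]
  have hv0 := hne v hv
  have hvl := hline v hv
  refine ⟨?_, fun w hw => ⟨w 0 / v 0, ?_⟩⟩
  · set β : Fin (m + 1) → E := fun j => ψ (b j) with hβ
    have hβv : β = fun j => (v 0)⁻¹ * v j := by
      funext j
      rw [hvl j, ← mul_assoc, inv_mul_cancel₀ hv0, one_mul]
    have hβ0 : β 0 = 1 := by rw [hβ]; simp [hb0]
    have hz : eval β (map ψ F) = 0 := by
      rw [hβv, eval_scale hF', hv.2.1, mul_zero]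
    have hp : ∀ j, eval β (pderiv j (map ψ F)) = 0 := by
      intro j
      rw [hβv, eval_scale (hF'.pderiv (i := j)), hv.2.2 j, mul_zero]
    have hd0 := hdet (fun j => by
        rw [← hψ, RingHom.mem_ker, ← eval_hom, ← pderiv_map]
        exact hp j) (by
        rw [← hψ, RingHom.mem_ker, ← eval_hom]
        exact hz)
    have hdE : Matrix.det (Matrix.of fun i j : {j : Fin (m + 1) // j ≠ 0} =>
        eval β (pderiv i.1 (pderiv j.1 (map ψ F)))) ≠ 0 := by
      intro h0
      apply hd0
      rw [← hψ, RingHom.mem_ker, RingHom.map_det, ← h0]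
      congr 1
      ext i j
      rw [RingHom.mapMatrix_apply, Matrix.map_apply, Matrix.of_apply, Matrix.of_apply, ← eval_hom,
        ← pderiv_map, ← pderiv_map]
    intro w hw
    have hwβ : ∀ i, ∑ j, eval β (pderiv i (pderiv j (map ψ F))) * w j = 0 := by
      intro i
      have h1 : ∀ j, eval β (pderiv i (pderiv j (map ψ F))) =
          ((v 0)⁻¹) ^ (d - 1 - 1) * eval v (pderiv i (pderiv j (map ψ F))) := by
        intro j
        rw [hβv, eval_scale ((hF'.pderiv (i := j)).pderiv (i := i))]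
      simp only [h1, mul_assoc, ← Finset.mul_sum]
      rw [hw i, mul_zero]
    have hββ := hess_mul hF' β hp
    set w' : Fin (m + 1) → E := fun j => w j - w 0 * β j with hw'
    have hw'0 : w' 0 = 0 := by
      rw [hw']
      simp only [hβ0]
      ring
    have hw's : ∀ i, ∑ j, eval β (pderiv i (pderiv j (map ψ F))) * w' j = 0 := by
      intro i
      have h1 : ∑ j, eval β (pderiv i (pderiv j (map ψ F))) * w' j =
          ∑ j, eval β (pderiv i (pderiv j (map ψ F))) * w j -
          w 0 * ∑ j, eval β (pderiv i (pderiv j (map ψ F))) * β j := by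
        rw [Finset.mul_sum, ← Finset.sum_sub_distrib]
        refine Finset.sum_congr rfl fun j _ => ?_
        rw [hw']
        ring
      rw [h1, hwβ i, hββ i]
      ring
    have hw'' : (fun j : {j : Fin (m + 1) // j ≠ 0} => w' j.1) = 0 := by
      refine Matrix.eq_zero_of_mulVec_eq_zero hdE ?_
      funext i
      rw [Matrix.mulVec, dotProduct, Pi.zero_apply]
      simp only [Matrix.of_apply]
      rw [← hw's i.1]
      have h2 := Finset.sum_subtype_of_mem (s := Finset.univ.filter fun j : Fin (m + 1) => j ≠ 0)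
        (fun j => eval β (pderiv i.1 (pderiv j (map ψ F))) * w' j) (p := fun j => j ≠ 0)
        (by intro x hx; exact (Finset.mem_filter.1 hx).2)
      have h3 : ∑ j : Fin (m + 1), eval β (pderiv i.1 (pderiv j (map ψ F))) * w' j =
          ∑ j ∈ Finset.univ.filter (fun j : Fin (m + 1) => j ≠ 0),
            eval β (pderiv i.1 (pderiv j (map ψ F))) * w' j := by
        rw [Finset.sum_filter]
        refine Finset.sum_congr rfl fun j _ => ?_
        by_cases hj : j = 0
        · subst hj
          simp [hw'0]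
        · simp [hj]
      rw [h3, ← h2]
      refine Finset.sum_congr ?_ fun _ _ => rfl
      ext x
      simp only [Finset.mem_subtype, Finset.mem_filter, Finset.mem_univ, true_and, true_iff]
      exact x.2
    refine ⟨w 0 * (v 0)⁻¹, ?_⟩
    funext j
    have h4 : w' j = 0 := by
      by_cases hj : j = 0
      · rw [hj, hw'0]
      · exact congrFun hw'' ⟨j, hj⟩
    have h5 : w j = w 0 * β j := sub_eq_zero.1 h4
    rw [h5, hβv]
    ring
  · funext j
    rw [hline w hw j, hvl j, div_mul_eq_mul_div, ← mul_assoc, mul_comm (w 0) (v 0),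
      mul_assoc, mul_div_assoc, mul_comm (v 0)]
    field_simp

theorem atMostOne_of_rename {O : Type} [CommRing O] {𝔭 : Ideal O} {m : ℕ}
    (σ : Equiv.Perm (Fin m)) {F : MvPolynomial (Fin m) O} (h : AtMostOneNode 𝔭 (rename σ F)) :
    AtMostOneNode 𝔭 F := by
  intro E _ ψ hψ v hv
  have hev : ∀ (u : Fin m → E) (G : MvPolynomial (Fin m) E),
      eval (fun j => u (σ.symm j)) (rename σ G) = eval u G := by
    intro u G
    rw [eval_rename]
    congr 2
    funext j
    simp
  have hpd : ∀ (G : MvPolynomial (Fin m) E) (j : Fin m),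
      pderiv j (rename σ G) = rename σ (pderiv (σ.symm j) G) := by
    intro G j
    rw [← pderiv_rename σ.injective, σ.apply_symm_apply]
  have hs : ∀ u : Fin m → E, IsSing (map ψ F) u →
      IsSing (map ψ (rename σ F)) fun j => u (σ.symm j) := by
    intro u hu
    refine ⟨fun h0 => hu.1 ?_, ?_, fun j => ?_⟩
    · funext j
      have h1 := congrFun h0 (σ j)
      simpa using h1
    · rw [map_rename, hev]
      exact hu.2.1
    · rw [map_rename, hpd, hev]
      exact hu.2.2 _
  obtain ⟨h1, h2⟩ := h E ψ hψ _ (hs v hv)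
  refine ⟨fun w hw => ?_, fun w hw => ?_⟩
  · obtain ⟨c, hc⟩ := h1 (fun j => w (σ.symm j)) (by
      intro i
      rw [← hw (σ.symm i)]
      rw [← Equiv.sum_comp σ.symm fun j => eval v (pderiv (σ.symm i) (pderiv j (map ψ F))) * w j]
      refine Finset.sum_congr rfl fun j _ => ?_
      rw [map_rename, hpd, hpd, hev])
    refine ⟨c, ?_⟩
    funext j
    have h3 := congrFun hc (σ j)
    simpa using h3
  · obtain ⟨c, hc⟩ := h2 _ (hs w hw)
    refine ⟨c, ?_⟩
    funext j
    have h3 := congrFun hc (σ j)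
    simpa using h3

/-- Change of the ring. -/
theorem atMostOne_map {O O' : Type} [CommRing O] [CommRing O'] (θ : O →+* O') (𝔓 : Ideal O')
    {m : ℕ} {F : MvPolynomial (Fin m) O} (h : AtMostOneNode (𝔓.comap θ) F) :
    AtMostOneNode 𝔓 (map θ F) := by
  intro E _ ψ hψ v hv
  have h1 : RingHom.ker (ψ.comp θ) = 𝔓.comap θ := by
    rw [← hψ, RingHom.comap_ker]
  have h2 := h E (ψ.comp θ) h1 v (by rw [← MvPolynomial.map_map]; exact hv)
  rw [← MvPolynomial.map_map] at h2
  exact h2

theorem noSing_map {O O' : Type} [CommRing O] [CommRing O'] (θ : O →+* O') (𝔓 : Ideal O')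
    {m : ℕ} {F : MvPolynomial (Fin m) O} (h : NoSingAt (𝔓.comap θ) F) :
    NoSingAt 𝔓 (map θ F) := by
  intro E _ ψ hψ v hv
  have h1 : RingHom.ker (ψ.comp θ) = 𝔓.comap θ := by
    rw [← hψ, RingHom.comap_ker]
  refine h E (ψ.comp θ) h1 v ?_
  rw [← MvPolynomial.map_map]
  exact hv

theorem noSing_add {O : Type} [CommRing O] {𝔭 : Ideal O} {m : ℕ} {F G : MvPolynomial (Fin m) O}
    {W : O} (hW : W ∈ 𝔭) (h : NoSingAt 𝔭 F) : NoSingAt 𝔭 (F + C W * G) := by
  intro E _ ψ hψ v hv
  refine h E ψ hψ v ?_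
  have h1 : map ψ (F + C W * G) = map ψ F := by
    have h2 : ψ W = 0 := by
      rw [← RingHom.mem_ker, hψ]
      exact hW
    rw [map_add, map_mul, map_C, h2, C_0, zero_mul, add_zero]
  rwa [h1] at hv

end Pool.Agent.Q46.LN
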