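import Pool.Agent.Q46.LN.Node
import Pool.Agent.Q46.ND.Pos2

/-! Forms with smooth reductions at the small primes; smoothness of almost all forms. -/

set_option autoImplicit false

open MvPolynomial NumberField Filter
open scoped Classical

namespace Pool.Agent.Q46.LN

open Pool.Agent.TH214.RM Pool.Agent.Q40.OD Pool.Agent.H918R2.Quad Pool.Agent.Q46.ND

theorem noSing_of_smAt {O : Type} [CommRing O] {𝔭 : Ideal O} {m d : ℕ}
    {G : MvPolynomial (Fin m) O} (hG : G.IsHomogeneous d) (h : SmAt 𝔭 G) : NoSingAt 𝔭 G := by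
  intro E _ ψ hψ v hv
  have hGE : (map ψ G).IsHomogeneous d := hG.map ψ
  obtain ⟨s, hs⟩ : ∃ s, v s ≠ 0 := by
    by_contra hcon
    push Not at hcon
    exact hv.1 (funext hcon)
  set u : Fin m → E := fun j => (v s)⁻¹ * v j with hu
  have hus : u s = 1 := by
    rw [hu]
    exact inv_mul_cancel₀ hs
  let θ : MvPolynomial {j : Fin m // j ≠ s} O →+* E := eval₂Hom ψ fun j => u j.1
  have hθ : ∀ P : MvPolynomial (Fin m) O, θ (deh s P) = eval u (map ψ P) := by
    intro P
    induction P using MvPolynomial.induction_on with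
    | C a => simp [deh, θ]
    | add p q hp hq =>
      simp only [deh, map_add] at hp hq ⊢
      rw [hp, hq]
    | mul_X p i hp =>
      simp only [deh, map_mul, aeval_X, map_X, eval_X] at hp ⊢
      rw [hp]
      congr 1
      unfold tau
      by_cases hi : i = s
      · subst hi
        rw [dif_pos rfl, map_one, hus]
      · rw [dif_neg hi]
        simp [θ]
  have hQ : (RingHom.ker θ).IsPrime := RingHom.ker_isPrime θ
  obtain ⟨j, hj⟩ := h s (RingHom.ker θ) hQ (fun r => by
      rw [RingHom.mem_ker, ← hψ, RingHom.mem_ker]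
      simp [θ]) (by
      rw [RingHom.mem_ker, hθ, hu, eval_scale hGE, hv.2.1, mul_zero])
  apply hj
  rw [RingHom.mem_ker, pderiv_deh, hθ, ← pderiv_map, hu, eval_scale (hGE.pderiv (i := j.1)),
    hv.2.2, mul_zero]

/-- A form over the integers with smooth reductions at the small primes. -/
theorem exists_seedS (n d : ℕ) (hd : 3 ≤ d) (M : ℕ) :
    ∃ F : MvPolynomial (Fin (n + 2)) ℤ, F.IsHomogeneous d ∧
      ∀ p : ℕ, p.Prime → p ≤ M → NoSingAt (Ideal.span {(p : ℤ)}) F := by
  have h8 : ∀ p : ℕ, ∃ c : Ix n d → ℤ, p.Prime →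
      SmAt (Ideal.span {(p : ℤ)}) (Pool.Agent.Q40.OD.form n d c) := by
    intro p
    by_cases hp : p.Prime
    · obtain ⟨c, hc⟩ := Pool.Agent.Q272.OD.s_ek8 n d hd p hp
      exact ⟨c, fun _ => hc⟩
    · exact ⟨0, fun h => absurd h hp⟩
  choose c hc using h8
  have hcrt : ∀ α : Ix n d, ∃ y : ℤ, ∀ p ∈ (Finset.range (M + 1)).filter Nat.Prime,
      y - c p α ∈ Ideal.span {(p : ℤ)} := by
    intro α
    obtain ⟨y, hy⟩ := IsDedekindDomain.exists_forall_sub_mem_ideal
      (s := (Finset.range (M + 1)).filter Nat.Prime)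
      (fun p : ℕ => Ideal.span {(p : ℤ)}) (fun _ => 1) (by
        intro p hp
        have h1 := (Finset.mem_filter.1 hp).2
        rw [Ideal.prime_iff_isPrime, Ideal.span_singleton_prime]
        · exact Nat.prime_iff_prime_int.1 h1
        · exact_mod_cast h1.ne_zero
        · rw [Ne, Ideal.span_singleton_eq_bot]
          exact_mod_cast h1.ne_zero) (by
        intro p _ q _ hpq h
        apply hpq
        rw [Ideal.span_singleton_eq_span_singleton, Int.associated_iff_natAbs] at h
        simpa using h) fun p => c p α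
    refine ⟨y, fun p hp => ?_⟩
    have h1 := hy p hp
    rwa [pow_one] at h1
  choose y hy using hcrt
  refine ⟨Pool.Agent.Q40.OD.form n d y, Pool.Agent.Q38.OD.form_hom n d y, fun p hp hpM => ?_⟩
  have hmem : p ∈ (Finset.range (M + 1)).filter Nat.Prime := by
    rw [Finset.mem_filter, Finset.mem_range]
    exact ⟨by omega, hp⟩
  have hdvd : ∀ α, ∃ z : ℤ, y α = c p α + (p : ℤ) * z := by
    intro α
    obtain ⟨z, hz⟩ := Ideal.mem_span_singleton.1 (hy α p hmem)
    exact ⟨z, by linarith⟩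
  choose z hz using hdvd
  have hform : Pool.Agent.Q40.OD.form n d y = Pool.Agent.Q40.OD.form n d (c p) +
      C (p : ℤ) * Pool.Agent.Q40.OD.form n d z := by
    unfold Pool.Agent.Q40.OD.form
    rw [Finset.mul_sum, ← Finset.sum_add_distrib]
    refine Finset.sum_congr rfl fun α _ => ?_
    rw [hz, C_mul_monomial, ← (monomial α.1).map_add]
  rw [hform]
  exact noSing_add (Ideal.mem_span_singleton_self _)
    (noSing_of_smAt (Pool.Agent.Q38.OD.form_hom n d (c p)) (hc p hp))

variable {K ι : Type} [Field K] [NumberField K] [Fintype ι] (ω : Module.Basis ι ℤ (𝓞 K))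

/-- A form over the integers of `K` with smooth reductions at the small primes. -/
theorem exists_seedKS (K : Type) [Field K] [NumberField K] (n d : ℕ) (hd : 3 ≤ d) (M : ℕ) :
    ∃ F : MvPolynomial (Fin (n + 2)) (𝓞 K), F.IsHomogeneous d ∧
      ∀ 𝔭 : Ideal (𝓞 K), 𝔭.IsPrime → ((M.factorial : ℕ) : 𝓞 K) ∈ 𝔭 → NoSingAt 𝔭 F := by
  obtain ⟨F, hF, h⟩ := exists_seedS n d hd M
  refine ⟨map (Int.castRingHom (𝓞 K)) F, hF.map _, fun 𝔭 hp hM => ?_⟩
  obtain ⟨p, hpp, hpM, hpm⟩ := exists_prime_mem' 𝔭 _ M.factorial_ne_zero hM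
  refine noSing_map _ 𝔭 ?_
  have h1 : 𝔭.comap (Int.castRingHom (𝓞 K)) = Ideal.span {(p : ℤ)} := by
    have hmax : (Ideal.span {(p : ℤ)}).IsMaximal :=
      PrincipalIdealRing.isMaximal_of_irreducible (Nat.prime_iff_prime_int.1 hpp).irreducible
    refine (hmax.eq_of_le (Ideal.comap_isPrime _ _).ne_top ?_).symm
    rw [Ideal.span_singleton_le_iff_mem, Ideal.mem_comap]
    simpa using hpm
  rw [h1]
  exact h p hpp ((Nat.Prime.dvd_factorial hpp).1 hpM)

end Pool.Agent.Q46.LN
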